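import Mathlib
import Pool.Agent.Q33.SC.Wr

/-!
# Metabelian quotients of surface groups have infinite diameter

Let `π` be the fundamental group of the orientable surface of genus `g ≥ 1` with `p` punctures.
-/

namespace Pool.Agent.Results.MP_4b02fd_al.InfiniteDiameter

open Q33.SC

/-- The names of the standard generators of the fundamental group of the orientable surface of
genus `g` with `p` punctures: `a i`, `b i` for the handles, `c j` for loops around the
punctures. -/
inductive Gen (g p : ℕ) : Type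
  | a (i : Fin g) : Gen g p
  | b (i : Fin g) : Gen g p
  | c (j : Fin p) : Gen g p

/-- The surface relator: the product of the commutators `a i * b i * (a i)⁻¹ * (b i)⁻¹`
followed by the product of the `c j`. -/
def relator (g p : ℕ) : FreeGroup (Gen g p) :=
  (List.ofFn fun i : Fin g => FreeGroup.of (Gen.a i) * FreeGroup.of (Gen.b i) *
    (FreeGroup.of (Gen.a i))⁻¹ * (FreeGroup.of (Gen.b i))⁻¹).prod *
  (List.ofFn fun j : Fin p => FreeGroup.of (Gen.c j)).prod

/-- The fundamental group of the orientable surface of genus `g` with `p` punctures. -/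
abbrev SurfaceGroup (g p : ℕ) : Type := PresentedGroup ({relator g p} : Set (FreeGroup (Gen g p)))

/-- The generator of the surface group with a given name. -/
def gen {g p : ℕ} (x : Gen g p) : SurfaceGroup g p := PresentedGroup.of x

/-- The classes of the generators in the first homology `ℤ^(2g)` of the closed surface obtained
by filling in the punctures. -/
def homologyGen {g p : ℕ} : Gen g p → Multiplicative (Fin g ⊕ Fin g → ℤ)
  | Gen.a i => Multiplicative.ofAdd (Pi.single (Sum.inl i) 1)
  | Gen.b i => Multiplicative.ofAdd (Pi.single (Sum.inr i) 1)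
  | Gen.c _ => 1

theorem lift_relator {g p : ℕ} {G : Type*} [Group G] (f : Gen g p → G) :
    FreeGroup.lift f (relator g p) =
      (List.ofFn fun i : Fin g => f (Gen.a i) * f (Gen.b i) * (f (Gen.a i))⁻¹ *
        (f (Gen.b i))⁻¹).prod * (List.ofFn fun j : Fin p => f (Gen.c j)).prod := by
  simp only [relator, map_mul, map_list_prod, List.map_ofFn]
  congr 2
  · congr 1
    funext i
    simp
  · congr 1
    funext j
    simp

theorem homologyGen_relator {g p : ℕ} :
    ∀ r ∈ ({relator g p} : Set (FreeGroup (Gen g p))),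
      FreeGroup.lift (homologyGen (g := g) (p := p)) r = 1 := by
  intro r hr
  rw [Set.mem_singleton_iff] at hr
  rw [hr, lift_relator]
  have h1 : (fun i : Fin g => homologyGen (p := p) (Gen.a i) * homologyGen (p := p) (Gen.b i) *
      (homologyGen (p := p) (Gen.a i))⁻¹ * (homologyGen (p := p) (Gen.b i))⁻¹) = fun _ => 1 := by
    funext i
    rw [mul_comm (homologyGen (Gen.a i)) (homologyGen (Gen.b i)), mul_assoc (homologyGen _)]
    simp
  have h2 : (fun j : Fin p => homologyGen (g := g) (Gen.c j)) = fun _ => 1 := rfl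
  rw [h1, h2]
  simp

/-- The class of an element of the surface group in the first homology `ℤ^(2g)` of the closed
surface obtained by filling in the punctures. -/
def homology {g p : ℕ} : SurfaceGroup g p →* Multiplicative (Fin g ⊕ Fin g → ℤ) :=
  PresentedGroup.toGroup (f := homologyGen) homologyGen_relator

/-- By the Dehn-Nielsen-Baer theorem the automorphisms of the surface group that are induced by
homeomorphisms of the surface are exactly those that permute the conjugacy classes of the
loops `c j` around the punctures, up to inversion. -/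
def IsGeometric {g p : ℕ} (φ : MulAut (SurfaceGroup g p)) : Prop :=
  ∀ j : Fin p, ∃ k : Fin p, IsConj (φ (gen (Gen.c j))) (gen (Gen.c k)) ∨
    IsConj (φ (gen (Gen.c j))) (gen (Gen.c k))⁻¹

/-- `x` is represented by a nonseparating simple closed curve: it is the image of the first
standard generator `a 0` under an automorphism induced by a homeomorphism. -/
def IsNonseparating {g p : ℕ} (x : SurfaceGroup g p) : Prop :=
  ∃ (h : 0 < g) (φ : MulAut (SurfaceGroup g p)), IsGeometric φ ∧ x = φ (gen (Gen.a ⟨0, h⟩))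

/-- The group `Q` has finite diameter with respect to `T`: for some `k`, every element of `Q` is a
product of at most `k` elements of `T` and inverses of elements of `T`. -/
def FiniteDiameter {Q : Type*} [Group Q] (T : Set Q) : Prop :=
  ∃ k : ℕ, ∀ q : Q, ∃ l : List Q, l.length ≤ k ∧ (∀ z ∈ l, z ∈ T ∨ z⁻¹ ∈ T) ∧ l.prod = q

/-- The quotient `π/π^(n)` of the surface group by the `n`-th term of its derived series has
finite diameter with respect to the image of `S`. -/
def QuotientFiniteDiameter {g p : ℕ} (S : Set (SurfaceGroup g p)) (n : ℕ) : Prop :=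
  FiniteDiameter
    ((QuotientGroup.mk' (derivedSeries (SurfaceGroup g p) n)) '' S)

/-! ### Homomorphisms from the surface group to `Wr` -/

section Main

variable {g p : ℕ}

abbrev Zg (g : ℕ) := Multiplicative (Fin g ⊕ Fin g → ℤ)

theorem homology_gen (x : Gen g p) : homology (gen x) = homologyGen x :=
  PresentedGroup.toGroup.of _

theorem inst_nzd : NoZeroDivisors (MonoidAlgebra ℤ (Zg g)) := inferInstance

/-- generators of `Wr` over the homology classes. -/
noncomputable def wrGen (f : Gen g p → MonoidAlgebra ℤ (Zg g)) (x : Gen g p) : Wr (Zg g) :=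
  ⟨f x, homologyGen x⟩

theorem wrGen_relator (f : Gen g p → MonoidAlgebra ℤ (Zg g))
    (hf : ∑ i : Fin g, ((1 - MonoidAlgebra.single (homologyGen (p := p) (Gen.b i)) 1) *
      f (Gen.a i) - (1 - MonoidAlgebra.single (homologyGen (p := p) (Gen.a i)) 1) *
      f (Gen.b i)) + ∑ j : Fin p, f (Gen.c j) = 0) :
    ∀ r ∈ ({relator g p} : Set (FreeGroup (Gen g p))),
      FreeGroup.lift (wrGen f) r = 1 := by
  intro r hr
  rw [Set.mem_singleton_iff] at hr
  rw [hr, lift_relator]
  have h1 : (fun i : Fin g => wrGen f (Gen.a i) * wrGen f (Gen.b i) *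
      (wrGen f (Gen.a i))⁻¹ * (wrGen f (Gen.b i))⁻¹) =
      fun i => Wr.ker (Multiplicative.ofAdd
        ((1 - MonoidAlgebra.single (homologyGen (p := p) (Gen.b i)) 1) *
      f (Gen.a i) - (1 - MonoidAlgebra.single (homologyGen (p := p) (Gen.a i)) 1) *
      f (Gen.b i))) := by
    funext i
    exact Wr.comm_eq _ _
  have h2 : (fun j : Fin p => wrGen f (Gen.c j)) =
      fun j => Wr.ker (Multiplicative.ofAdd (f (Gen.c j))) := rfl
  have h3 : ∀ {m : ℕ} (u : Fin m → MonoidAlgebra ℤ (Zg g)),
      (List.ofFn fun i => Wr.ker (Multiplicative.ofAdd (u i))).prod =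
        Wr.ker (Multiplicative.ofAdd (∑ i, u i)) := by
    intro m u
    have : (List.ofFn fun i => Wr.ker (Multiplicative.ofAdd (u i))) =
        (List.ofFn fun i => Multiplicative.ofAdd (u i)).map Wr.ker := by
      rw [List.map_ofFn]; rfl
    rw [this, ← map_list_prod, List.prod_ofFn, ofAdd_sum]
  rw [h1, h2, h3, h3, ← map_mul, ← ofAdd_add, hf]
  rfl

/-- the homomorphism to `Wr` with given first components. -/
noncomputable def toWr (f : Gen g p → MonoidAlgebra ℤ (Zg g))
    (hf : ∑ i : Fin g, ((1 - MonoidAlgebra.single (homologyGen (p := p) (Gen.b i)) 1) *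
      f (Gen.a i) - (1 - MonoidAlgebra.single (homologyGen (p := p) (Gen.a i)) 1) *
      f (Gen.b i)) + ∑ j : Fin p, f (Gen.c j) = 0) :
    SurfaceGroup g p →* Wr (Zg g) :=
  PresentedGroup.toGroup (f := wrGen f) (wrGen_relator f hf)

theorem toWr_gen (f : Gen g p → MonoidAlgebra ℤ (Zg g)) (hf) (x : Gen g p) :
    toWr f hf (gen x) = ⟨f x, homologyGen x⟩ :=
  PresentedGroup.toGroup.of _

theorem toWr_v (f : Gen g p → MonoidAlgebra ℤ (Zg g)) (hf) (x : SurfaceGroup g p) :
    (toWr f hf x).v = homology x := by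
  have h : (Wr.proj.comp (toWr f hf)) = homology := by
    apply PresentedGroup.ext
    intro x
    change (toWr f hf (gen x)).v = homology (gen x)
    rw [toWr_gen, homology_gen]
  exact DFunLike.congr_fun h x

theorem single_ne_one {z : Zg g} (hz : z ≠ 1) :
    (1 : MonoidAlgebra ℤ (Zg g)) - MonoidAlgebra.single z 1 ≠ 0 := by
  intro h0
  have h2 : (1 : MonoidAlgebra ℤ (Zg g)) = MonoidAlgebra.single z 1 := sub_eq_zero.mp h0
  rw [MonoidAlgebra.one_def] at h2
  exact hz (MonoidAlgebra.of_injective (R := ℤ) (M := Zg g) h2).symm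

theorem hom_a_ne (i : Fin g) : homologyGen (p := p) (Gen.a i) ≠ 1 := by
  intro h
  have h1 : (Pi.single (Sum.inl i) 1 : Fin g ⊕ Fin g → ℤ) = 0 := h
  have := congrFun h1 (Sum.inl i)
  simp at this

/-- The crossed homomorphism used. -/
theorem exists_crossed (hg : 1 ≤ g) (h : ¬ (g = 1 ∧ p = 0)) :
    ∃ (d : Crossed (SurfaceGroup g p) (Zg g)) (c : SurfaceGroup g p),
      (∀ x, d.v x = homology x) ∧ d.v c = 1 ∧ d.D c ≠ 0 := by
  classical
  have := inst_nzd (g := g)
  by_cases hg2 : 2 ≤ g
  · let i0 : Fin g := ⟨0, by omega⟩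
    let i1 : Fin g := ⟨1, by omega⟩
    have hi : i0 ≠ i1 := by
      intro h
      have := congrArg Fin.val h
      simp [i0, i1] at this
    let A1 : MonoidAlgebra ℤ (Zg g) := MonoidAlgebra.single (homologyGen (p := p) (Gen.a i1)) 1
    let B0 : MonoidAlgebra ℤ (Zg g) := MonoidAlgebra.single (homologyGen (p := p) (Gen.b i0)) 1
    let f : Gen g p → MonoidAlgebra ℤ (Zg g) := fun x => match x with
      | Gen.a i => if i = i0 then A1 - 1 else 0
      | Gen.b i => if i = i1 then B0 - 1 else 0
      | Gen.c _ => 0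
    have hfa : ∀ i, f (Gen.a i) = if i = i0 then A1 - 1 else 0 := fun _ => rfl
    have hfb : ∀ i, f (Gen.b i) = if i = i1 then B0 - 1 else 0 := fun _ => rfl
    have hfc : ∀ j, f (Gen.c j) = 0 := fun _ => rfl
    have hf : ∑ i : Fin g, ((1 - MonoidAlgebra.single (homologyGen (p := p) (Gen.b i)) 1) *
      f (Gen.a i) - (1 - MonoidAlgebra.single (homologyGen (p := p) (Gen.a i)) 1) *
      f (Gen.b i)) + ∑ j : Fin p, f (Gen.c j) = 0 := by
      simp only [hfa, hfb, hfc, mul_ite, mul_zero, Finset.sum_sub_distrib,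
        Finset.sum_ite_eq', Finset.mem_univ, if_true, Finset.sum_const_zero, add_zero]
      change (1 - B0) * (A1 - 1) - (1 - A1) * (B0 - 1) = 0
      ring
    refine ⟨Wr.crossed (toWr f hf), gen (Gen.a i0) * gen (Gen.a i1) * (gen (Gen.a i0))⁻¹ *
      (gen (Gen.a i1))⁻¹, ?_, ?_, ?_⟩
    · intro x
      exact toWr_v f hf x
    · change (toWr f hf _).v = 1
      rw [map_mul, map_mul, map_mul, map_inv, map_inv, Wr.comm_eq]
      rfl
    · change (toWr f hf _).d ≠ 0
      rw [map_mul, map_mul, map_mul, map_inv, map_inv, Wr.comm_eq]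
      change (1 - MonoidAlgebra.single (toWr f hf (gen (Gen.a i1))).v 1) *
        (toWr f hf (gen (Gen.a i0))).d -
        (1 - MonoidAlgebra.single (toWr f hf (gen (Gen.a i0))).v 1) *
        (toWr f hf (gen (Gen.a i1))).d ≠ 0
      rw [toWr_gen, toWr_gen, hfa, hfa, if_pos rfl, if_neg hi.symm, mul_zero, sub_zero]
      have h1 := single_ne_one (hom_a_ne (p := p) i1)
      refine mul_ne_zero h1 ?_
      intro h2
      apply h1
      have h2' : A1 - 1 = 0 := h2
      change 1 - A1 = 0
      rw [← neg_sub, h2', neg_zero]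
  · have hg1 : g = 1 := by omega
    have hp : 0 < p := by
      rcases Nat.eq_zero_or_pos p with h0 | h0
      · exact absurd ⟨hg1, h0⟩ h
      · exact h0
    let i0 : Fin g := ⟨0, by omega⟩
    let j0 : Fin p := ⟨0, hp⟩
    have hall : ∀ i : Fin g, i = i0 := by
      intro i
      apply Fin.ext
      have := i.isLt
      change i.val = 0
      omega
    let A0 : MonoidAlgebra ℤ (Zg g) := MonoidAlgebra.single (homologyGen (p := p) (Gen.a i0)) 1
    let f : Gen g p → MonoidAlgebra ℤ (Zg g) := fun x => match x with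
      | Gen.a _ => 0
      | Gen.b i => if i = i0 then 1 else 0
      | Gen.c j => if j = j0 then 1 - A0 else 0
    have hfa : ∀ i, f (Gen.a i) = 0 := fun _ => rfl
    have hfb : ∀ i, f (Gen.b i) = if i = i0 then 1 else 0 := fun _ => rfl
    have hfc : ∀ j, f (Gen.c j) = if j = j0 then 1 - A0 else 0 := fun _ => rfl
    have hf : ∑ i : Fin g, ((1 - MonoidAlgebra.single (homologyGen (p := p) (Gen.b i)) 1) *
      f (Gen.a i) - (1 - MonoidAlgebra.single (homologyGen (p := p) (Gen.a i)) 1) *
      f (Gen.b i)) + ∑ j : Fin p, f (Gen.c j) = 0 := by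
      simp only [hfa, hfb, hfc, mul_ite, mul_zero, mul_one, Finset.sum_neg_distrib,
        Finset.sum_ite_eq', Finset.mem_univ, if_true, zero_sub]
      change -(1 - A0) + (1 - A0) = 0
      ring
    refine ⟨Wr.crossed (toWr f hf), gen (Gen.a i0) * gen (Gen.b i0) * (gen (Gen.a i0))⁻¹ *
      (gen (Gen.b i0))⁻¹, ?_, ?_, ?_⟩
    · intro x
      exact toWr_v f hf x
    · change (toWr f hf _).v = 1
      rw [map_mul, map_mul, map_mul, map_inv, map_inv, Wr.comm_eq]
      rfl
    · change (toWr f hf _).d ≠ 0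
      rw [map_mul, map_mul, map_mul, map_inv, map_inv, Wr.comm_eq]
      change (1 - MonoidAlgebra.single (toWr f hf (gen (Gen.b i0))).v 1) *
        (toWr f hf (gen (Gen.a i0))).d -
        (1 - MonoidAlgebra.single (toWr f hf (gen (Gen.a i0))).v 1) *
        (toWr f hf (gen (Gen.b i0))).d ≠ 0
      rw [toWr_gen, toWr_gen, hfa i0, hfb i0, if_pos (rfl : i0 = i0), mul_zero, mul_one, zero_sub]
      exact neg_ne_zero.mpr (single_ne_one (hom_a_ne (p := p) i0))

/-- Automorphisms induced by homeomorphisms act on the homology of the closed surface, so that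
nonseparating simple closed curves are not null-homologous. -/
theorem homology_ne_one {x : SurfaceGroup g p} (hx : IsNonseparating x) : homology x ≠ 1 := by
  obtain ⟨h0, φ, hφ, rfl⟩ := hx
  -- the additive map induced by φ
  let u : Fin g ⊕ Fin g → (Fin g ⊕ Fin g → ℤ) := fun k => match k with
    | Sum.inl i => Multiplicative.toAdd (homology (φ (gen (p := p) (Gen.a i))))
    | Sum.inr i => Multiplicative.toAdd (homology (φ (gen (p := p) (Gen.b i))))
  let T : (Fin g ⊕ Fin g → ℤ) →ₗ[ℤ] (Fin g ⊕ Fin g → ℤ) := Fintype.linearCombination ℤ u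
  have hT : ∀ k, T (Pi.single k 1) = u k := by
    intro k
    have := Fintype.linearCombination_apply_single ℤ (v := u) k 1
    rw [one_smul] at this
    exact this
  have hc : ∀ j : Fin p, homology (φ (gen (Gen.c j))) = 1 := by
    intro j
    obtain ⟨k, hk⟩ := hφ j
    have h1 : homology (gen (Gen.c k) : SurfaceGroup g p) = 1 := homology_gen _
    rcases hk with hk | hk
    · have := (homology (g := g) (p := p)).map_isConj hk
      rw [isConj_iff_eq, h1] at this
      exact this
    · have := (homology (g := g) (p := p)).map_isConj hk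
      rw [isConj_iff_eq, map_inv, h1, inv_one] at this
      exact this
  have hcomp : (homology (g := g) (p := p)).comp φ.toMonoidHom =
      (AddMonoidHom.toMultiplicative T.toAddMonoidHom).comp homology := by
    apply PresentedGroup.ext
    intro y
    change homology (φ (gen y)) = Multiplicative.ofAdd (T (Multiplicative.toAdd
      (homology (gen y))))
    rw [homology_gen]
    cases y with
    | a i =>
      change _ = Multiplicative.ofAdd (T (Pi.single (Sum.inl i) 1))
      rw [hT]
      rfl
    | b i =>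
      change _ = Multiplicative.ofAdd (T (Pi.single (Sum.inr i) 1))
      rw [hT]
      rfl
    | c j =>
      change _ = Multiplicative.ofAdd (T 0)
      rw [map_zero, hc]
      rfl
  have happ : ∀ y, homology (φ y) = Multiplicative.ofAdd (T (Multiplicative.toAdd
      (homology y))) := fun y => DFunLike.congr_fun hcomp y
  have hsurj0 : Function.Surjective (homology (g := g) (p := p)) := by
    intro z
    have hz : ∀ (s : Finset (Fin g ⊕ Fin g)) (w : Fin g ⊕ Fin g → ℤ),
        ∃ y : SurfaceGroup g p, homology y = Multiplicative.ofAdd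
          (∑ k ∈ s, w k • (Pi.single k 1 : Fin g ⊕ Fin g → ℤ)) := by
      intro s w
      classical
      induction s using Finset.induction_on with
      | empty => exact ⟨1, by rw [map_one]; rfl⟩
      | insert k s hk ih =>
        obtain ⟨y, hy⟩ := ih
        rw [Finset.sum_insert hk]
        rcases k with i | i
        · refine ⟨gen (Gen.a i) ^ (w (Sum.inl i)) * y, ?_⟩
          rw [map_mul, map_zpow, hy, homology_gen]
          rfl
        · refine ⟨gen (Gen.b i) ^ (w (Sum.inr i)) * y, ?_⟩
          rw [map_mul, map_zpow, hy, homology_gen]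
          rfl
    obtain ⟨y, hy⟩ := hz Finset.univ (Multiplicative.toAdd z)
    refine ⟨y, ?_⟩
    rw [hy]
    have h2 : ∑ k, (Multiplicative.toAdd z) k • (Pi.single k 1 : Fin g ⊕ Fin g → ℤ) =
        Multiplicative.toAdd z := by
      funext m
      simp [Finset.sum_apply, Pi.single_apply]
    rw [h2]
    rfl
  have hsurj : Function.Surjective T := by
    intro z
    obtain ⟨y, hy⟩ := hsurj0 (Multiplicative.ofAdd z)
    refine ⟨Multiplicative.toAdd (homology (φ.symm y)), ?_⟩
    have h3 := happ (φ.symm y)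
    have h4 : φ (φ.symm y) = y := φ.apply_symm_apply y
    rw [h4, hy] at h3
    exact h3.symm
  have hinj : Function.Injective T := IsNoetherian.injective_of_surjective_endomorphism T hsurj
  intro h1
  rw [happ, homology_gen] at h1
  have h2 : T (Pi.single (Sum.inl ⟨0, h0⟩) 1) = T 0 := by
    rw [map_zero]
    exact h1
  have h3 := hinj h2
  have h4 := congrFun h3 (Sum.inl ⟨0, h0⟩)
  simp at h4

instance : Finite (Gen g p) := by
  let f : Fin g ⊕ Fin g ⊕ Fin p → Gen g p := fun x => match x with
    | Sum.inl i => Gen.a i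
    | Sum.inr (Sum.inl i) => Gen.b i
    | Sum.inr (Sum.inr j) => Gen.c j
  apply Finite.of_surjective f
  intro y
  cases y with
  | a i => exact ⟨Sum.inl i, rfl⟩
  | b i => exact ⟨Sum.inr (Sum.inl i), rfl⟩
  | c j => exact ⟨Sum.inr (Sum.inr j), rfl⟩

instance : Countable (SurfaceGroup g p) := by
  have h1 : Countable (FreeGroup (Gen g p)) := by
    unfold FreeGroup
    infer_instance
  exact (QuotientGroup.mk_surjective (s := Subgroup.normalClosure
    ({relator g p} : Set (FreeGroup (Gen g p))))).countable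

theorem closure_gen : Subgroup.closure (Set.range (gen (g := g) (p := p))) = ⊤ :=
  PresentedGroup.closure_range_of _

/-- The bad generating set. -/
theorem exists_set (hg : 1 ≤ g) (h : ¬ (g = 1 ∧ p = 0)) :
    ∃ S : Set (SurfaceGroup g p), Subgroup.closure S = ⊤ ∧
      (∀ x, homology x ≠ 1 → ∃ s ∈ S, IsConj x s) ∧
      ∀ n, 2 ≤ n → ¬ QuotientFiniteDiameter S n := by
  have := inst_nzd (g := g)
  obtain ⟨d, c, hv, hc, hq⟩ := exists_crossed (g := g) (p := p) hg h
  have hne : ({x | homology x ≠ 1} : Set (SurfaceGroup g p)).Nonempty :=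
    ⟨gen (Gen.a ⟨0, hg⟩), by
      change homology (gen _) ≠ 1
      rw [homology_gen]
      exact hom_a_ne _⟩
  obtain ⟨e, he⟩ := (Set.to_countable ({x | homology x ≠ 1} :
    Set (SurfaceGroup g p))).exists_eq_range hne
  have he1 : ∀ n, d.v (e n) ≠ 1 := by
    intro n
    rw [hv]
    have : e n ∈ ({x | homology x ≠ 1} : Set (SurfaceGroup g p)) := by
      rw [he]; exact ⟨n, rfl⟩
    exact this
  obtain ⟨B, hB⟩ : ∃ B : ℕ, ∀ x ∈ Set.range (gen (g := g) (p := p)), NS (d.D x) ≤ B := by
    have hfin : (Set.range fun x : Gen g p => NS (d.D (gen x))).Finite := Set.finite_range _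
    obtain ⟨B, hB⟩ := hfin.bddAbove
    refine ⟨B, ?_⟩
    rintro _ ⟨x, rfl⟩
    exact hB ⟨x, rfl⟩
  refine ⟨Set.range gen ∪ Set.range (Crossed.gg d B c e), ?_, ?_, ?_⟩
  · rw [eq_top_iff, ← closure_gen]
    exact Subgroup.closure_mono Set.subset_union_left
  · intro x hx
    have : x ∈ Set.range e := by rw [← he]; exact hx
    obtain ⟨n, rfl⟩ := this
    refine ⟨Crossed.gg d B c e n, Or.inr ⟨n, rfl⟩, ?_⟩
    rw [isConj_iff]
    exact ⟨c ^ (Crossed.M d B c e n), rfl⟩
  · rintro n hn ⟨k, hk⟩
    obtain ⟨l, hlen, hl, hprod⟩ := hk (QuotientGroup.mk' _ (c ^ (Crossed.T d B c e k)))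
    obtain ⟨l', hlen', hl', hprod'⟩ : ∃ l' : List (SurfaceGroup g p), l'.length ≤ l.length ∧
        (∀ z ∈ l', z ∈ Set.range gen ∪ Set.range (Crossed.gg d B c e) ∨
          z⁻¹ ∈ Set.range gen ∪ Set.range (Crossed.gg d B c e)) ∧
        QuotientGroup.mk' (derivedSeries (SurfaceGroup g p) n) l'.prod = l.prod := by
      clear hlen hprod
      induction l with
      | nil => exact ⟨[], le_refl _, by simp, by simp⟩
      | cons w l ih =>
        obtain ⟨l', h1, h2, h3⟩ := ih (fun z hz => hl z (List.mem_cons_of_mem _ hz))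
        obtain ⟨y, hy, hyw⟩ : ∃ y : SurfaceGroup g p,
            (y ∈ Set.range gen ∪ Set.range (Crossed.gg d B c e) ∨
            y⁻¹ ∈ Set.range gen ∪ Set.range (Crossed.gg d B c e)) ∧
            QuotientGroup.mk' (derivedSeries (SurfaceGroup g p) n) y = w := by
          rcases hl w List.mem_cons_self with ⟨y, hy, hyw⟩ | ⟨y, hy, hyw⟩
          · exact ⟨y, Or.inl hy, hyw⟩
          · refine ⟨y⁻¹, Or.inr (by rwa [inv_inv]), ?_⟩
            rw [map_inv, hyw, inv_inv]
        refine ⟨y :: l', by simpa using h1, ?_, ?_⟩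
        · intro z hz
          rcases List.mem_cons.mp hz with rfl | hz
          · exact hy
          · exact h2 z hz
        · rw [List.prod_cons, List.prod_cons, map_mul, h3, hyw]
    have hmem : (c ^ (Crossed.T d B c e k))⁻¹ * l'.prod ∈ derivedSeries (SurfaceGroup g p) n := by
      rw [← QuotientGroup.eq]
      exact (hprod'.trans hprod).symm
    have hmem2 := derivedSeries_antitone (G := SurfaceGroup g p) hn hmem
    have h1 := d.D_eq_of_mem hmem2
    rw [d.D_pow hc] at h1
    exact Crossed.core d B c e (Set.range gen) hB hc hq he1 k l' (hlen'.trans hlen) hl' h1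

end Main

/-! ### The torus -/

section Torus

theorem torus_ab : (gen (Gen.a 0) : SurfaceGroup 1 0) * gen (Gen.b 0) =
    gen (Gen.b 0) * gen (Gen.a 0) := by
  have h1 : (PresentedGroup.mk ({relator 1 0} : Set (FreeGroup (Gen 1 0)))) (relator 1 0) = 1 :=
    PresentedGroup.one_of_mem (Set.mem_singleton _)
  have h2 : (FreeGroup.lift (fun x => (gen x : SurfaceGroup 1 0))) (relator 1 0) = 1 := by
    have : (FreeGroup.lift (fun x => (gen x : SurfaceGroup 1 0))) =
        PresentedGroup.mk ({relator 1 0} : Set (FreeGroup (Gen 1 0))) := by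
      ext x
      simp only [FreeGroup.lift_apply_of]
      rfl
    rw [this]
    exact h1
  rw [lift_relator] at h2
  simp only [List.ofFn_succ, List.ofFn_zero, List.prod_cons, List.prod_nil, mul_one] at h2
  exact mul_inv_eq_iff_eq_mul.mp (mul_inv_eq_one.mp h2)

theorem torus_closure_le (H : Subgroup (SurfaceGroup 1 0)) (ha : gen (Gen.a 0) ∈ H)
    (hb : gen (Gen.b 0) ∈ H) (x : SurfaceGroup 1 0) : x ∈ H := by
  have h : Subgroup.closure (Set.range (gen (g := 1) (p := 0))) ≤ H := by
    rw [Subgroup.closure_le]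
    rintro _ ⟨y, rfl⟩
    cases y with
    | a i =>
      have : i = 0 := Subsingleton.elim _ _
      rw [this]; exact ha
    | b i =>
      have : i = 0 := Subsingleton.elim _ _
      rw [this]; exact hb
    | c j => exact j.elim0
  rw [closure_gen] at h
  exact h trivial

theorem torus_comm (x y : SurfaceGroup 1 0) : x * y = y * x := by
  have hc : ∀ z : SurfaceGroup 1 0, gen (Gen.a 0) * z = z * gen (Gen.a 0) →
      gen (Gen.b 0) * z = z * gen (Gen.b 0) → ∀ w, w * z = z * w := by
    intro z h1 h2 w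
    have := torus_closure_le (Subgroup.centralizer {z}) (by
      rw [Subgroup.mem_centralizer_singleton_iff]; exact h1) (by
      rw [Subgroup.mem_centralizer_singleton_iff]; exact h2) w
    rw [Subgroup.mem_centralizer_singleton_iff] at this
    exact this
  have ha := hc (gen (Gen.a 0)) rfl torus_ab.symm
  have hb := hc (gen (Gen.b 0)) torus_ab rfl
  exact hc y (ha y).symm (hb y).symm x

/-- endomorphisms of the fundamental group of the torus. -/
theorem torus_hom (u v : SurfaceGroup 1 0) : ∃ f : SurfaceGroup 1 0 →* SurfaceGroup 1 0,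
    f (gen (Gen.a 0)) = u ∧ f (gen (Gen.b 0)) = v := by
  let f0 : Gen 1 0 → SurfaceGroup 1 0 := fun x => match x with
    | Gen.a _ => u
    | Gen.b _ => v
    | Gen.c j => j.elim0
  have hf0 : ∀ r ∈ ({relator 1 0} : Set (FreeGroup (Gen 1 0))), FreeGroup.lift f0 r = 1 := by
    intro r hr
    rw [Set.mem_singleton_iff] at hr
    rw [hr, lift_relator]
    simp only [List.ofFn_succ, List.ofFn_zero, List.prod_cons, List.prod_nil, mul_one]
    change u * v * u⁻¹ * v⁻¹ = 1
    rw [torus_comm u v, mul_assoc v, mul_inv_cancel, mul_one, mul_inv_cancel]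
  exact ⟨PresentedGroup.toGroup (f := f0) hf0, PresentedGroup.toGroup.of _,
    PresentedGroup.toGroup.of _⟩

theorem torus_ext (f h : SurfaceGroup 1 0 →* SurfaceGroup 1 0)
    (ha : f (gen (Gen.a 0)) = h (gen (Gen.a 0))) (hb : f (gen (Gen.b 0)) = h (gen (Gen.b 0))) :
    f = h := by
  ext x
  exact torus_closure_le (f.eqLocus h) ha hb (gen x)

theorem torus_nonsep {x : SurfaceGroup 1 0} (f h : SurfaceGroup 1 0 →* SurfaceGroup 1 0)
    (hfa : f (gen (Gen.a 0)) = x) (h1 : h (f (gen (Gen.a 0))) = gen (Gen.a 0))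
    (h2 : h (f (gen (Gen.b 0))) = gen (Gen.b 0)) (h3 : f (h (gen (Gen.a 0))) = gen (Gen.a 0))
    (h4 : f (h (gen (Gen.b 0))) = gen (Gen.b 0)) : IsNonseparating x := by
  have e1 : h.comp f = MonoidHom.id _ := torus_ext _ _ h1 h2
  have e2 : f.comp h = MonoidHom.id _ := torus_ext _ _ h3 h4
  refine ⟨Nat.one_pos, MonoidHom.toMulEquiv f h e1 e2, fun j => j.elim0, ?_⟩
  exact hfa.symm

theorem torus_nonsep_one (k : ℤ) :
    IsNonseparating ((gen (Gen.a 0) : SurfaceGroup 1 0) * gen (Gen.b 0) ^ k) := by
  obtain ⟨f, hfa, hfb⟩ := torus_hom (gen (Gen.a 0) * gen (Gen.b 0) ^ k) (gen (Gen.b 0))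
  obtain ⟨h, hha, hhb⟩ := torus_hom (gen (Gen.a 0) * gen (Gen.b 0) ^ (-k)) (gen (Gen.b 0))
  refine torus_nonsep f h hfa ?_ ?_ ?_ ?_
  · rw [hfa, map_mul, map_zpow, hha, hhb, mul_assoc, ← zpow_add]
    simp
  · rw [hfb, hhb]
  · rw [hha, map_mul, map_zpow, hfa, hfb, mul_assoc, ← zpow_add]
    simp
  · rw [hhb, hfb]

theorem torus_nonsep_two (k : ℤ) :
    IsNonseparating ((gen (Gen.a 0) : SurfaceGroup 1 0) ^ k * gen (Gen.b 0)) := by
  obtain ⟨f, hfa, hfb⟩ := torus_hom (gen (Gen.a 0) ^ k * gen (Gen.b 0)) (gen (Gen.a 0))⁻¹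
  obtain ⟨h, hha, hhb⟩ := torus_hom (gen (Gen.b 0))⁻¹ (gen (Gen.b 0) ^ k * gen (Gen.a 0))
  refine torus_nonsep f h hfa ?_ ?_ ?_ ?_
  · rw [hfa, map_mul, map_zpow, hha, hhb, ← mul_assoc, inv_zpow]
    simp
  · rw [hfb, map_inv, hha, inv_inv]
  · rw [hha, map_inv, hfb, inv_inv]
  · rw [hhb, map_mul, map_zpow, hfa, hfb, ← mul_assoc, inv_zpow]
    simp

theorem torus_form (x : SurfaceGroup 1 0) :
    ∃ m n : ℤ, x = gen (Gen.a 0) ^ m * gen (Gen.b 0) ^ n := by
  exact torus_closure_le
    { carrier := {x | ∃ m n : ℤ, x = gen (Gen.a 0) ^ m * gen (Gen.b 0) ^ n}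
      one_mem' := ⟨0, 0, by simp⟩
      mul_mem' := by
        rintro _ _ ⟨m, n, rfl⟩ ⟨m', n', rfl⟩
        refine ⟨m + m', n + n', ?_⟩
        rw [zpow_add, zpow_add, mul_assoc, mul_assoc]
        congr 1
        rw [← mul_assoc, ← mul_assoc, torus_comm (gen (Gen.b 0) ^ n)]
      inv_mem' := by
        rintro _ ⟨m, n, rfl⟩
        refine ⟨-m, -n, ?_⟩
        rw [mul_inv_rev, zpow_neg, zpow_neg, torus_comm] } ⟨1, 0, by simp⟩ ⟨0, 1, by simp⟩ x

theorem torus_diameter (S : Set (SurfaceGroup 1 0))
    (hS : ∀ x, IsNonseparating x → ∃ s ∈ S, IsConj x s) (n : ℕ) :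
    QuotientFiniteDiameter S n := by
  have hS' : ∀ x : SurfaceGroup 1 0, IsNonseparating x → x ∈ S := by
    intro x hx
    obtain ⟨s, hs, hxs⟩ := hS x hx
    rw [isConj_iff] at hxs
    obtain ⟨c, hc⟩ := hxs
    rw [torus_comm c x, mul_assoc, mul_inv_cancel, mul_one] at hc
    rw [hc]; exact hs
  refine ⟨2, ?_⟩
  intro q
  obtain ⟨x, rfl⟩ := QuotientGroup.mk'_surjective _ q
  obtain ⟨m, k, rfl⟩ := torus_form x
  refine ⟨[QuotientGroup.mk' _ (gen (Gen.a 0) * gen (Gen.b 0) ^ (k - 1)),
    QuotientGroup.mk' _ (gen (Gen.a 0) ^ (m - 1) * gen (Gen.b 0))], le_refl _, ?_, ?_⟩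
  · intro z hz
    left
    rcases List.mem_cons.mp hz with rfl | hz
    · exact ⟨_, hS' _ (torus_nonsep_one _), rfl⟩
    · rcases List.mem_cons.mp hz with rfl | hz
      · exact ⟨_, hS' _ (torus_nonsep_two _), rfl⟩
      · simp at hz
  · rw [List.prod_cons, List.prod_cons, List.prod_nil, mul_one, ← map_mul]
    congr 1
    rw [torus_comm (gen (Gen.a 0) ^ (m - 1)), ← mul_assoc, mul_assoc (gen (Gen.a 0)),
      ← zpow_add_one, sub_add_cancel, torus_comm (gen (Gen.a 0)), mul_assoc, ← zpow_one_add,
      add_sub_cancel, torus_comm]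

end Torus

/-- **Main theorem.** Let `g ≥ 1`, and let `π` be the fundamental group of the orientable surface
of genus `g` with `p` punctures.

(1) All the quotients `π/π^(n)` have finite diameter with respect to all generating sets `S` that
meet every conjugacy class represented by a nonseparating simple closed curve if and only if the
surface is the closed torus.

(2) If the surface is not the closed torus, some generating set `S` meets the conjugacy class of
every element that is nonzero in the homology of the closed surface, in particular every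
conjugacy class represented by a nonseparating simple closed curve, and `π/π^(n)` has infinite
diameter with respect to `S` for every `n ≥ 2`. -/
theorem result (g p : ℕ) (hg : 1 ≤ g) :
    ((∀ S : Set (SurfaceGroup g p), Subgroup.closure S = ⊤ →
        (∀ x, IsNonseparating x → ∃ s ∈ S, IsConj x s) →
        ∀ n, 1 ≤ n → QuotientFiniteDiameter S n) ↔ (g = 1 ∧ p = 0)) ∧
    (¬ (g = 1 ∧ p = 0) →
      ∃ S : Set (SurfaceGroup g p), Subgroup.closure S = ⊤ ∧
        (∀ x, homology x ≠ 1 → ∃ s ∈ S, IsConj x s) ∧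
        (∀ x, IsNonseparating x → ∃ s ∈ S, IsConj x s) ∧
        ∀ n, 2 ≤ n → ¬ QuotientFiniteDiameter S n) := by
  have key : ¬ (g = 1 ∧ p = 0) →
      ∃ S : Set (SurfaceGroup g p), Subgroup.closure S = ⊤ ∧
        (∀ x, homology x ≠ 1 → ∃ s ∈ S, IsConj x s) ∧
        (∀ x, IsNonseparating x → ∃ s ∈ S, IsConj x s) ∧
        ∀ n, 2 ≤ n → ¬ QuotientFiniteDiameter S n := by
    intro h
    obtain ⟨S, h1, h2, h3⟩ := exists_set hg h
    exact ⟨S, h1, h2, fun x hx => h2 x (homology_ne_one hx), h3⟩
  refine ⟨⟨?_, ?_⟩, key⟩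
  · intro hall
    by_contra h
    obtain ⟨S, h1, _, h3, h4⟩ := key h
    exact h4 2 le_rfl (hall S h1 h3 2 (by norm_num))
  · rintro ⟨rfl, rfl⟩ S _ hS n _
    exact torus_diameter S hS n

end Pool.Agent.Results.MP_4b02fd_al.InfiniteDiameter
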